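import Pool.Agent.helper62.DP7.Spec

set_option autoImplicit false

namespace Pool.Agent.helper62.DP7

open Finset

theorem COR_mt {V W : Type} {R : W → W → Prop} {L : V → Finset W} (hC : Cov R L) {x y : V} (hxy : x ≠ y)
    {X Y : Finset W} (hX : X ⊆ L x) (hY : Y ⊆ L y) : Mt R X Y :=
  fun _ hc _ hd _ hd' h1 h2 => hC.mat x y hxy _ (hX hc) _ (hY hd) _ (hY hd') h1 h2

theorem COR (hLST : LST_stmt) (hFAN : FAN_stmt) : COR_stmt := by
  intro V W _ G R L hC A B u a b p q huB haB hbB hpB hqB hnd haq hbp ku ka kb kp kq kpq hcol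
  obtain ⟨f, hf1, hf2⟩ := hcol
  have hnd' : ((u ≠ a ∧ u ≠ b ∧ u ≠ p ∧ u ≠ q) ∧ (a ≠ b ∧ a ≠ p ∧ a ≠ q) ∧ (b ≠ p ∧ b ≠ q) ∧ p ≠ q) := by
    simpa [List.nodup_cons, not_or, and_assoc] using hnd
  obtain ⟨⟨hua, hub, hup, huq⟩, ⟨hab, hap, haq'⟩, ⟨hbp', hbq⟩, hpq⟩ := hnd'
  obtain ⟨Lu, hLu, cLu, rLu⟩ := hLST V W G R L hC A B u huB f hf1
  obtain ⟨La, hLa, cLa, rLa⟩ := hLST V W G R L hC A B a haB f hf1
  obtain ⟨Lb, hLb, cLb, rLb⟩ := hLST V W G R L hC A B b hbB f hf1
  obtain ⟨Lp, hLp, cLp, rLp⟩ := hLST V W G R L hC A B p hpB f hf1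
  obtain ⟨Lq, hLq, cLq, rLq⟩ := hLST V W G R L hC A B q hqB f hf1
  obtain ⟨cu, hcu, ca, hca, cb, hcb, cp, hcp, cq, hcq, n1, n2, n3, n4, n5, n6, n7, n8⟩ :=
    hFAN W R Lu La Lb Lp Lq (sq G A p q) hC.symm
      (COR_mt hC hua hLu hLa) (COR_mt hC hua.symm hLa hLu)
      (COR_mt hC hub hLu hLb) (COR_mt hC hub.symm hLb hLu)
      (COR_mt hC hup hLu hLp) (COR_mt hC hup.symm hLp hLu)
      (COR_mt hC huq hLu hLq) (COR_mt hC huq.symm hLq hLu)
      (COR_mt hC hab hLa hLb) (COR_mt hC hab.symm hLb hLa)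
      (COR_mt hC hap hLa hLp) (COR_mt hC hap.symm hLp hLa)
      (COR_mt hC hbq hLb hLq) (COR_mt hC hbq.symm hLq hLb)
      (COR_mt hC hpq hLp hLq) (COR_mt hC hpq.symm hLq hLp)
      (by omega) (by omega) (by omega) (by omega) (by omega)
      (fun h => by
        obtain ⟨h1, h2⟩ := kpq h
        exact ⟨by omega, by omega⟩)
  obtain ⟨g, gu, ga, gb, gp, gq, gB⟩ : ∃ g : V → W, g u = cu ∧ g a = ca ∧ g b = cb ∧ g p = cp ∧ g q = cq ∧
      ∀ x, x ∈ B → g x = f x := by
    refine ⟨fun x => if x = u then cu else if x = a then ca else if x = b then cb else if x = p then cp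
      else if x = q then cq else f x, ?_, ?_, ?_, ?_, ?_, ?_⟩
    · simp
    · simp [hua.symm]
    · simp [hub.symm, hab.symm]
    · simp [hup.symm, hap.symm, hbp'.symm]
    · simp [huq.symm, haq'.symm, hbq.symm, hpq.symm]
    · intro x hx
      have k1 : x ≠ u := fun h => huB (h ▸ hx)
      have k2 : x ≠ a := fun h => haB (h ▸ hx)
      have k3 : x ≠ b := fun h => hbB (h ▸ hx)
      have k4 : x ≠ p := fun h => hpB (h ▸ hx)
      have k5 : x ≠ q := fun h => hqB (h ▸ hx)
      simp [k1, k2, k3, k4, k5]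
  have hsym : ∀ x y, (sq G A x y → ¬ R (g x) (g y)) → (sq G A y x → ¬ R (g y) (g x)) :=
    fun x y h hs hr => h (sq_symm hs) (hC.symm _ _ hr)
  have hirr : ∀ x, (sq G A x x → ¬ R (g x) (g x)) := fun x hs => absurd rfl hs.1
  have hzB : ∀ z cz, g z = cz → (∀ x ∈ qn G A B z, ¬ R (f x) cz) → ∀ x ∈ B,
      (sq G A x z → ¬ R (g x) (g z)) := by
    intro z cz hz hq x hx hs
    rw [gB x hx, hz]
    exact hq x (mem_qn.2 ⟨hx, sq_symm hs⟩)
  have hK : ∀ z ∈ ({u, a, b, p, q} : Finset V), ∀ x ∈ B, (sq G A x z → ¬ R (g x) (g z)) := by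
    intro z hz
    simp only [mem_insert, mem_singleton] at hz
    rcases hz with hz | hz | hz | hz | hz
    · rw [hz]; exact hzB u cu gu (rLu cu hcu)
    · rw [hz]; exact hzB a ca ga (rLa ca hca)
    · rw [hz]; exact hzB b cb gb (rLb cb hcb)
    · rw [hz]; exact hzB p cp gp (rLp cp hcp)
    · rw [hz]; exact hzB q cq gq (rLq cq hcq)
  have e1 : sq G A u a → ¬ R (g u) (g a) := fun _ => by rw [gu, ga]; exact n1
  have e2 : sq G A u b → ¬ R (g u) (g b) := fun _ => by rw [gu, gb]; exact n2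
  have e3 : sq G A u p → ¬ R (g u) (g p) := fun _ => by rw [gu, gp]; exact n3
  have e4 : sq G A u q → ¬ R (g u) (g q) := fun _ => by rw [gu, gq]; exact n4
  have e5 : sq G A a b → ¬ R (g a) (g b) := fun _ => by rw [ga, gb]; exact n5
  have e6 : sq G A a p → ¬ R (g a) (g p) := fun _ => by rw [ga, gp]; exact n6
  have e7 : sq G A a q → ¬ R (g a) (g q) := fun h => absurd h haq
  have e8 : sq G A b p → ¬ R (g b) (g p) := fun h => absurd h hbp
  have e9 : sq G A b q → ¬ R (g b) (g q) := fun _ => by rw [gb, gq]; exact n7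
  have e10 : sq G A p q → ¬ R (g p) (g q) := fun h => by rw [gp, gq]; exact n8 h
  have hKK : ∀ z ∈ ({u, a, b, p, q} : Finset V), ∀ y ∈ ({u, a, b, p, q} : Finset V),
      (sq G A z y → ¬ R (g z) (g y)) := by
    intro z hz y hy
    simp only [mem_insert, mem_singleton] at hz hy
    rcases hz with hz | hz | hz | hz | hz <;> rcases hy with hy | hy | hy | hy | hy <;> rw [hz, hy] <;>
      first
        | exact hirr _
        | exact e1
        | exact hsym _ _ e1
        | exact e2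
        | exact hsym _ _ e2
        | exact e3
        | exact hsym _ _ e3
        | exact e4
        | exact hsym _ _ e4
        | exact e5
        | exact hsym _ _ e5
        | exact e6
        | exact hsym _ _ e6
        | exact e7
        | exact hsym _ _ e7
        | exact e8
        | exact hsym _ _ e8
        | exact e9
        | exact hsym _ _ e9
        | exact e10
        | exact hsym _ _ e10
  refine ⟨g, ?_, ?_⟩
  · intro v hv
    rcases mem_union.1 hv with h | h
    · rw [gB v h]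
      exact hf1 v h
    · simp only [mem_insert, mem_singleton] at h
      rcases h with h | h | h | h | h
      · rw [h, gu]; exact hLu hcu
      · rw [h, ga]; exact hLa hca
      · rw [h, gb]; exact hLb hcb
      · rw [h, gp]; exact hLp hcp
      · rw [h, gq]; exact hLq hcq
  · intro x hx y hy
    rcases mem_union.1 hx with h | h <;> rcases mem_union.1 hy with h' | h'
    · intro hs
      rw [gB x h, gB y h']
      exact hf2 x h y h' hs
    · exact hK y h' x h
    · exact hsym _ _ (hK x h y h')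
    · exact hKK x h y h'

end Pool.Agent.helper62.DP7
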